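import Pool.Agent.Helper42.SG.GoalsT
import Pool.Agent.Helper76.SGA.Goals

/-!
# Project SG (MP_a41896_nt), part 2: elimination and zero estimate (helper66)

Part 2 works on `E_1 × E_2 × C_0`: the point `z` (variables `0, 1`) is free in `E_1 × E_2`, the point
`x_0` (variables `2, 3`) is on the LOW curve `f(x(a_0), x(b_0)) = 0` and is never moved.
`Q` = the norm polynomial of `P^0` (in `X_0, .., X_3`), `r = Res_(X_3)(f, Q)`.
-/

set_option autoImplicit false

open MvPolynomial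

namespace Pool.Agent.Helper66.SG

open WeierstrassCurve Height
open Pool.Agent.Helper29.BL Pool.Agent.Helper92.Ru Pool.Agent.Helper42.SG
open Pool.Agent.Helper76.SGA

noncomputable section

/-- the point `(x, y)` as a function on `Fin 2`. -/
def pt {A : Type} (x y : A) : Fin 2 → A := fun e => if e = 0 then x else y

/-- the substitution `(X_0, X_1, ξ_2, ξ_3)`. -/
def sp4 {K : Type} [Field K] (ξ : ℕ → K) : Fin 4 → MvPolynomial (Fin 2) K := fun h =>
  if h = 0 then X 0 else if h = 1 then X 1 else C (ξ h.val)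

/-- the substitution `(X_0, X_1, ξ_2)`. -/
def sp3 {K : Type} [Field K] (ξ : ℕ → K) : Fin 3 → MvPolynomial (Fin 2) K := fun h =>
  if h = 0 then X 0 else if h = 1 then X 1 else C (ξ h.val)

/-- **RNF**: the resultant of a prime polynomial and a polynomial which it does not divide.
PROOF.  Let `K` be the fraction field of `A`.  `F` is irreducible, so primitive (`Irreducible.isPrimitive`, `natDegree ≥ 1`),
so irreducible over `K` (Gauss), and its image does not divide that of `G` (`F` primitive: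
`IsPrimitive.dvd_of_fraction_map_dvd_fraction_map`-type lemma, or: `c G = F Q` with `c ∈ A` nonzero, `F` prime of degree `≥ 1`
does not divide `C c`; `C c * G = F * Q` over `A`: by induction on the prime factors of `c`, which are prime in `A[X]`
and do not divide the primitive `F`, so divide `Q`).  So the images are coprime and
`resultant_ne_zero`, `resultant_map_map` (`natDegree_map_eq_of_injective`).  Compare `RNZ` of `Helper76/SGA`
(the same proof, without formal degrees). -/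
def RNF : Prop :=
  ∀ (A : Type) [CommRing A] [IsDomain A] [UniqueFactorizationMonoid A] (F G : Polynomial A),
    Prime F → 1 ≤ F.natDegree → ¬ F ∣ G → Polynomial.resultant F G ≠ 0

/-- **RDG**: degrees of the resultant (true degrees).  Hypothesis allowed: `SEP`.
PROOF.  The Sylvester matrix (size `N + M`, `N = deg F ≤ D`, `M = deg G ≤ d`, `F = sepL f`, `G = sepL g`) has `M` columns whose
entries are `0` or coefficients of `F` and `N` columns whose entries are `0` or coefficients of `G`.  A product over a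
permutation takes one entry from every column: its degree in `X_h` is `≤ M deg_h f + N deg_h g`
(`Matrix.det_apply`, `degreeOf_sum_le`, `degreeOf_prod_le`). -/
def RDG : Prop :=
  ∀ (K : Type) [Field K] (m D d : ℕ) (f g : MvPolynomial (Fin (m + 1)) K),
    f.degreeOf (Fin.last m) ≤ D → g.degreeOf (Fin.last m) ≤ d → ∀ h : Fin m,
      (Polynomial.resultant (sepL K m f) (sepL K m g)).degreeOf h ≤
        d * f.degreeOf (Fin.castSucc h) + D * g.degreeOf (Fin.castSucc h)

/-- **RHG**: height of the resultant (true degrees).  Hypothesis allowed: `SEP`.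
PROOF.  At a place `v` let `S(p)` be the sum (archimedean `v`) or the maximum (nonarchimedean) of the absolute values of the
coefficients: submultiplicative, `S(p + q) ≤ S(p) + S(q)` (resp. maximum).  An entry of the Sylvester matrix which is a coefficient
of `sepL f` has at most `(R+1)^m` monomials, so `S ≤ cst v ((R+1)^m) |f|_v`, `|f|_v` the maximum of the coefficients of `f`; the same
for `g`.  So `S(Res) ≤ cst v ((D + d)! ((R+1)^m)^(D + d)) |f|_v^M |g|_v^N` (`M ≤ d` columns of `f`, `N ≤ D` columns of `g`), and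
`max |coeff| ≤ S`.  Product over the places (`Height.mulHeight_eq`): `PH(Res) ≤ ((D+d)! (R+1)^(m (D+d)))^[K:ℚ] PH(f)^M PH(g)^N`, `PH ≥ 1`,
`log (R+1) ≤ R`.  (If the resultant is `0`: `PH = 1`.)  `C = [K:ℚ] (log (D+d)! + m (D+d)) + D + d + 1`; note `R ≥ 1`.
Compare `DetHeight` (`Pool/Agent/Helper15/Ru/DetH.lean`) and `RHT` of `Helper76/SGA`. -/
def RHG : Prop :=
  ∀ (K : Type) [Field K] [NumberField K] (m D d : ℕ), ∃ C : ℝ, 1 ≤ C ∧
    ∀ (f g : MvPolynomial (Fin (m + 1)) K) (R : ℕ), 1 ≤ R → f ≠ 0 → g ≠ 0 →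
      f.degreeOf (Fin.last m) ≤ D → g.degreeOf (Fin.last m) ≤ d →
      (∀ h, f.degreeOf h ≤ R) → (∀ h, g.degreeOf h ≤ R) →
      Real.log (PH (Polynomial.resultant (sepL K m f) (sepL K m g))) ≤
        C * (R + Real.log (PH f) + Real.log (PH g))

/-- **RESF**: elimination of `X_3` with the equation `f(X_2, X_3) = 0`.  Hypotheses allowed: `RNF`, `RDG`,
`RHG`, `SEP`, `REN` (of `Helper76/SGA`).
PROOF.  `F = rename (0 ↦ 2, 1 ↦ 3) f` in `MvPolynomial (Fin 4) K`, prime (`f` is prime since `MvPolynomial` is a UFD;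
`MvPolynomial.prime_rename_iff` for the set `{2, 3}`, after an identification of `Fin 2` with this set), of degree `≥ 1` in `X_3`.
`F` does not divide `Q`: otherwise `Q(X_0, X_1, ξ_2, ξ_3) = 0` as `f(ξ_2, ξ_3) = 0`.  `r = Res (sepL F, sepL Q)` (true degrees; `sepL` is an
isomorphism) is not zero by RNF.  Degrees, height: RDG, RHG with `m = 3` (`deg_0 F = deg_1 F = 0`, `PH F = PH f`).
`exists_mul_add_mul_eq_C_resultant`: `C r = sepL F * U + sepL Q * V`; apply the inverse of `sepL` and substitute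
`(X_0, X_1, ξ_2, ξ_3)`: `F ↦ f(ξ_2, ξ_3) = 0`, so `r(X_0, X_1, ξ_2) = Q(X_0, X_1, ξ_2, ξ_3) * V'`. -/
def RESF : Prop :=
  ∀ (K : Type) [Field K] [NumberField K] (D d : ℕ), ∃ C : ℝ, 1 ≤ C ∧
    ∀ (f : MvPolynomial (Fin 2) K) (Q : MvPolynomial (Fin 4) K) (R : ℕ) (ξ : ℕ → K),
      Irreducible f → (∀ i, f.degreeOf i ≤ D) → 1 ≤ f.degreeOf 1 → 1 ≤ R → D ≤ R →
      (∀ h, Q.degreeOf h ≤ R) → Q.degreeOf 2 ≤ d → Q.degreeOf 3 ≤ d →
      eval (pt (ξ 2) (ξ 3)) f = 0 → aeval (sp4 ξ) Q ≠ 0 →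
      ∃ r : MvPolynomial (Fin 3) K, r ≠ 0 ∧ r.degreeOf 0 ≤ D * R ∧ r.degreeOf 1 ≤ D * R ∧
        r.degreeOf 2 ≤ 2 * D * d ∧
        Real.log (PH r) ≤ C * (R + Real.log (PH f) + Real.log (PH Q)) ∧
        aeval (sp4 ξ) Q ∣ aeval (sp3 ξ) r

/-- **IXR**: the index of `r` from the order of `r(X_0, X_1, ξ_2)` at `(ξ_0, ξ_1)`.
PROOF.  A monomial `e` of `shiftP ξ r` with `e 2 ≥ 1` has weight `≥ 1 / d0 ≥ θ`.  If `e 2 = 0` then the exponent
`(e 0, e 1)` is a monomial of `shiftP (ξ 0, ξ 1) (r(X_0, X_1, ξ_2))` with the same coefficient (put `t_2 = 0` in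
`shiftP ξ r`: both sides are algebra homomorphisms applied to `r`), so `(e 0 + e 1) / d1 ≥ θ`. -/
def IXR : Prop :=
  ∀ (K : Type) [Field K] (ξ : ℕ → K) (r : MvPolynomial (Fin 3) K) (d1 d0 : ℕ) (θ : ℝ),
    1 ≤ d1 → 1 ≤ d0 → θ * d0 ≤ 1 →
    IndGe (fun _ : Fin 2 => d1) (fun h : Fin 2 => ξ h.val) θ (aeval (sp3 ξ) r) →
    IndGe (fun h : Fin 3 => if h = 2 then d0 else d1) (fun h : Fin 3 => ξ h.val) θ r

/-- **ZER**: the zero estimate of part 2, weights `(d1, d1, d0)`.  Hypotheses allowed: `STEPB`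
(of `Helper76/SGA`), `FAC`, `BASE`.
PROOF.  STEPB for `m = 2` (the last variable `X_2` has the weight `d0 ≤ ω d1` and a large height): `U` in two variables,
`InvW (d1, d1) (ξ_0, ξ_1) (C H) σ' W' U`.  FAC for `m = 2` (`d1 ≤ H ≤ C H`): an irreducible `g`,
`InvW (d1, d1) .. (C' C H) σ'' W'' g`.  BASE with `d = d1`, `C' C H`, `σ''`: degrees `≤ D`, `g(ξ_0, ξ_1) = 0`,
`d1 log PH g ≤ Kc (C' C H)`.  `Kc` := product of all the constants. -/
def ZER : Prop :=
  ∀ (K : Type) [Field K] [NumberField K] (σ : ℝ), 0 < σ → ∃ (D : ℕ) (Kc ω : ℝ),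
    1 ≤ Kc ∧ 0 < ω ∧ ω ≤ 1 ∧
    ∀ (d1 d0 : ℕ) (ξ : ℕ → K) (H W : ℝ) (p : MvPolynomial (Fin 3) K),
      1 ≤ d1 → 1 ≤ d0 → (d1 : ℝ) ≤ H → (d0 : ℝ) ≤ ω * d1 → 1 ≤ (d0 : ℝ) * W →
      InvW (fun h : Fin 3 => if h = 2 then d0 else d1) (fun h : Fin 3 => ξ h.val) H σ W p →
      Kc * H < d0 * Height.logHeight₁ (ξ 2) → Kc * H < d1 * Height.logHeight₁ (ξ 0) →
      Kc * H < d1 * Height.logHeight₁ (ξ 1) →
      ∃ g : MvPolynomial (Fin 2) K, Irreducible g ∧ (∀ e, g.degreeOf e ≤ D) ∧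
        eval (pt (ξ 0) (ξ 1)) g = 0 ∧ d1 * Real.log (PH g) ≤ Kc * H

end

end Pool.Agent.Helper66.SG
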