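import Pool.Agent.Helper66.SG.Goals

/-!
# Project SG, part 2: the index of `r` from the order of `r(X_0, X_1, ξ_2)`
-/

set_option autoImplicit false

open MvPolynomial

namespace Pool.Agent.Helper66.SG

open WeierstrassCurve Height
open Pool.Agent.Helper29.BL Pool.Agent.Helper92.Ru Pool.Agent.Helper42.SG
open Pool.Agent.Helper76.SGA

noncomputable section

variable {K : Type} [Field K]

/-- the first two exponents -/
def rs (e : Fin 3 →₀ ℕ) : Fin 2 →₀ ℕ := Finsupp.equivFunOnFinite.symm fun h => e (Fin.castSucc h)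

lemma rs_apply (e : Fin 3 →₀ ℕ) (h : Fin 2) : rs e h = e (Fin.castSucc h) := rfl

/-- put `X_2 = 0` -/
def f0 : Fin 3 → MvPolynomial (Fin 2) K := fun h =>
  if h = 0 then X 0 else if h = 1 then X 1 else 0

lemma f0_mono (e : Fin 3 →₀ ℕ) (a : K) :
    aeval (f0 (K := K)) (monomial e a) = if e 2 = 0 then monomial (rs e) a else 0 := by
  rw [aeval_monomial, Finsupp.prod_fintype _ _ (fun i => pow_zero _), Fin.prod_univ_three]
  have h0 : f0 (K := K) 0 = X 0 := by unfold f0; rw [if_pos rfl]
  have h1 : f0 (K := K) 1 = X 1 := by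
    unfold f0; rw [if_neg (by decide), if_pos rfl]
  have h2 : f0 (K := K) 2 = 0 := by
    unfold f0; rw [if_neg (by decide), if_neg (by decide)]
  rw [h0, h1, h2]
  split_ifs with he
  · rw [he, pow_zero, mul_one]
    have hm : (monomial (rs e) a : MvPolynomial (Fin 2) K) = C a * (X 0 ^ e 0 * X 1 ^ e 1) := by
      rw [monomial_eq, Finsupp.prod_fintype _ _ (fun i => pow_zero _), Fin.prod_univ_two]
      rfl
    rw [hm]
    rfl
  · rw [zero_pow he, mul_zero, mul_zero]

lemma coeff_f0 (p : MvPolynomial (Fin 3) K) (e : Fin 3 →₀ ℕ) (he : e 2 = 0) :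
    coeff (rs e) (aeval (f0 (K := K)) p) = coeff e p := by
  classical
  conv_lhs => rw [← p.support_sum_monomial_coeff]
  rw [map_sum, coeff_sum]
  have h1 : ∀ d ∈ p.support, coeff (rs e) (aeval (f0 (K := K)) (monomial d (coeff d p))) =
      if d = e then coeff d p else 0 := by
    intro d _
    rw [f0_mono]
    by_cases hde : d = e
    · subst hde
      rw [if_pos he, if_pos rfl, coeff_monomial, if_pos rfl]
    · rw [if_neg hde]
      split_ifs with h2
      · rw [coeff_monomial, if_neg]
        intro h3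
        apply hde
        ext i
        fin_cases i
        · exact DFunLike.congr_fun h3 (0 : Fin 2)
        · exact DFunLike.congr_fun h3 (1 : Fin 2)
        · exact h2.trans he.symm
      · exact coeff_zero _
  rw [Finset.sum_congr rfl h1, Finset.sum_ite_eq' p.support e (fun d => coeff d p)]
  split_ifs with h2
  · rfl
  · exact (notMem_support_iff.1 h2).symm

lemma f0_shift (ξ : ℕ → K) (r : MvPolynomial (Fin 3) K) :
    aeval (f0 (K := K)) (shiftP (fun h : Fin 3 => ξ h.val) r) =
      shiftP (fun h : Fin 2 => ξ h.val) (aeval (sp3 ξ) r) := by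
  have h : (aeval (f0 (K := K))).comp (shiftP (fun h : Fin 3 => ξ h.val)) =
      (shiftP (fun h : Fin 2 => ξ h.val)).comp (aeval (sp3 ξ)) := by
    apply MvPolynomial.algHom_ext
    intro i
    simp only [AlgHom.comp_apply]
    unfold shiftP
    rw [aeval_X, aeval_X, map_add, aeval_X, aeval_C]
    fin_cases i
    · show f0 (K := K) 0 + algebraMap K _ (ξ 0) = aeval _ (sp3 ξ 0)
      have e1 : f0 (K := K) 0 = X 0 := by unfold f0; rw [if_pos rfl]
      have e2 : sp3 ξ 0 = X 0 := by unfold sp3; rw [if_pos rfl]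
      rw [e1, e2, aeval_X]
      rfl
    · show f0 (K := K) 1 + algebraMap K _ (ξ 1) = aeval _ (sp3 ξ 1)
      have e1 : f0 (K := K) 1 = X 1 := by unfold f0; rw [if_neg (by decide), if_pos rfl]
      have e2 : sp3 ξ 1 = X 1 := by unfold sp3; rw [if_neg (by decide), if_pos rfl]
      rw [e1, e2, aeval_X]
      rfl
    · show f0 (K := K) 2 + algebraMap K _ (ξ 2) = aeval _ (sp3 ξ 2)
      have e1 : f0 (K := K) 2 = 0 := by
        unfold f0; rw [if_neg (by decide), if_neg (by decide)]
      have e2 : sp3 ξ 2 = C (ξ 2) := by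
        unfold sp3; rw [if_neg (by decide), if_neg (by decide)]; rfl
      rw [e1, e2, zero_add, aeval_C]
  exact DFunLike.congr_fun h r

theorem t_ixr : IXR := by
  intro K _ ξ r d1 d0 θ hd1 hd0 hθ hI e he
  have hd0' : (0 : ℝ) < d0 := by exact_mod_cast hd0
  have hd1' : (0 : ℝ) < d1 := by exact_mod_cast hd1
  rw [Fin.sum_univ_three]
  have r0 : (fun h : Fin 3 => if h = 2 then d0 else d1) 0 = d1 := if_neg (by decide)
  have r1 : (fun h : Fin 3 => if h = 2 then d0 else d1) 1 = d1 := if_neg (by decide)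
  have r2 : (fun h : Fin 3 => if h = 2 then d0 else d1) 2 = d0 := if_pos rfl
  rw [r0, r1, r2]
  by_cases h2 : e 2 = 0
  · have h3 : rs e ∈ (shiftP (fun h : Fin 2 => ξ h.val) (aeval (sp3 ξ) r)).support := by
      rw [mem_support_iff, ← f0_shift, coeff_f0 _ e h2]
      exact mem_support_iff.1 he
    have h4 := hI (rs e) h3
    rw [Fin.sum_univ_two] at h4
    have e0 : rs e 0 = e 0 := rfl
    have e1 : rs e 1 = e 1 := rfl
    rw [e0, e1] at h4
    rw [h2, Nat.cast_zero, zero_div, add_zero]
    exact h4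
  · have h3 : (1 : ℝ) ≤ e 2 := by exact_mod_cast Nat.one_le_iff_ne_zero.2 h2
    have h4 : θ ≤ (e 2 : ℝ) / d0 := by
      rw [le_div_iff₀ hd0']
      exact hθ.trans h3
    have h5 : 0 ≤ (e 0 : ℝ) / d1 := by positivity
    have h6 : 0 ≤ (e 1 : ℝ) / d1 := by positivity
    linarith

end

end Pool.Agent.Helper66.SG
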