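import Pool.Agent.Helper66.SG.Goals

/-!
# Project SG (MP_a41896_nt), part 2: RESF, elimination of `X_3` with the equation of the low curve
-/

set_option autoImplicit false

open MvPolynomial

namespace Pool.Agent.Helper66.SG

open WeierstrassCurve Height
open Pool.Agent.Helper29.BL Pool.Agent.Helper92.Ru Pool.Agent.Helper42.SG
open Pool.Agent.Helper76.SGA

noncomputable section

/-- renaming the variables injectively keeps primes prime. -/
theorem prime_ren {K : Type} [Field K] {m M : ℕ} (e : Fin m → Fin M) (he : Function.Injective e)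
    (f : MvPolynomial (Fin m) K) (hf : Irreducible f) : Prime (rename e f) := by
  have h1 : Prime f := hf.prime
  have h2 : Prime (renameEquiv K (Equiv.ofInjective e he) f) :=
    (MulEquiv.prime_iff (renameEquiv K (Equiv.ofInjective e he))).2 h1
  have h3 : rename e f = rename ((↑) : Set.range e → Fin M)
      (renameEquiv K (Equiv.ofInjective e he) f) := by
    rw [renameEquiv_apply, rename_rename]
    rfl
  rw [h3]
  exact (prime_rename_iff (Set.range e)).2 h2

/-- the embedding of the variables `X_2, X_3`. -/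
def e23 : Fin 2 → Fin 4 := fun i => if i = 0 then 2 else 3

theorem e23_inj : Function.Injective e23 := by
  intro a b h
  fin_cases a <;> fin_cases b <;> simp_all [e23]

theorem e23_range {h : Fin 4} (h0 : h ≠ 2) (h1 : h ≠ 3) : h ∉ Set.range e23 := by
  rintro ⟨i, rfl⟩
  fin_cases i
  · exact h0 rfl
  · exact h1 rfl

theorem aeval_sepL_symm {K : Type} [Field K] (h4 : SEP) (ξ : ℕ → K) (r : MvPolynomial (Fin 3) K) :
    aeval (sp4 ξ) ((sepL K 3).symm (Polynomial.C r)) = aeval (sp3 ξ) r := by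
  obtain ⟨s1, s2, s3, s4, s5, s6, -⟩ := h4 K 3
  have key : (aeval (sp4 ξ)).comp (((sepL K 3).symm.toAlgHom).comp
      (Polynomial.CAlgHom : MvPolynomial (Fin 3) K →ₐ[K] Polynomial (MvPolynomial (Fin 3) K))) =
      aeval (sp3 ξ) := by
    apply MvPolynomial.algHom_ext
    intro h
    have e1 : (sepL K 3).symm (Polynomial.C (X h)) = X (Fin.castSucc h) := by
      rw [← s2 h, AlgEquiv.symm_apply_apply]
    have e2 : ((aeval (sp4 ξ)).comp (((sepL K 3).symm.toAlgHom).comp
      (Polynomial.CAlgHom : MvPolynomial (Fin 3) K →ₐ[K] Polynomial (MvPolynomial (Fin 3) K))))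
        (X h) = aeval (sp4 ξ) ((sepL K 3).symm (Polynomial.C (X h))) := rfl
    rw [e2, e1, aeval_X, aeval_X]
    fin_cases h <;> simp [sp4, sp3]
  exact DFunLike.congr_fun key r

theorem aeval_F {K : Type} [Field K] (ξ : ℕ → K) (f : MvPolynomial (Fin 2) K)
    (hev : eval (pt (ξ 2) (ξ 3)) f = 0) : aeval (sp4 ξ) (rename e23 f) = 0 := by
  rw [aeval_rename]
  have key : (aeval (sp4 ξ ∘ e23) : MvPolynomial (Fin 2) K →ₐ[K] MvPolynomial (Fin 2) K) =
      (Algebra.ofId K (MvPolynomial (Fin 2) K)).comp (aeval (pt (ξ 2) (ξ 3))) := by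
    apply MvPolynomial.algHom_ext
    intro h
    rw [AlgHom.comp_apply, aeval_X, aeval_X, Algebra.ofId_apply]
    fin_cases h <;> simp [sp4, e23, pt, MvPolynomial.algebraMap_eq]
  have h2 : aeval (pt (ξ 2) (ξ 3)) f = (0 : K) := by
    rw [← hev]
    exact congrArg (fun z : MvPolynomial (Fin 2) K →+* K => z f)
      (coe_aeval_eq_eval (pt (ξ 2) (ξ 3)))
  rw [key, AlgHom.comp_apply, h2, map_zero]

theorem t_resf (h1 : RNF) (h2 : RDG) (h3 : RHG) (h4 : SEP) (h5 : REN) : RESF := by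
  intro K _ _ D d
  obtain ⟨C, hC, h3⟩ := h3 K 3 D d
  refine ⟨C, hC, ?_⟩
  intro f Q R ξ hf hfD hf1 hR hDR hQR hQ2 hQ3 hev hQ
  obtain ⟨s1, s2, s3, s4, s5, s6, -⟩ := h4 K 3
  set F : MvPolynomial (Fin 4) K := rename e23 f with hF
  have hFp : Prime F := prime_ren e23 e23_inj f hf
  have hdeg : ∀ i, F.degreeOf (e23 i) = f.degreeOf i := fun i =>
    degreeOf_rename_of_injective e23_inj i
  have hdeg0 : ∀ h, h ∉ Set.range e23 → F.degreeOf h = 0 := by
    intro h hh
    by_contra hne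
    have hv := vars_rename e23 f (mem_vars_iff_degreeOf_ne_zero.2 hne)
    rw [Finset.mem_image] at hv
    obtain ⟨i, -, hi⟩ := hv
    exact hh ⟨i, hi⟩
  have hPH : PH F = PH f := by
    obtain ⟨f', hf', -, hPH, -⟩ := h5 K 2 4 e23 e23_inj F hdeg0
    have : f' = f := (rename_injective e23 e23_inj hf'.symm)
    rw [← hPH, this]
  have hF3 : F.degreeOf (Fin.last 3) = f.degreeOf 1 := hdeg 1
  have hF2 : F.degreeOf 2 = f.degreeOf 0 := hdeg 0
  have hF0 : F.degreeOf 0 = 0 := hdeg0 0 (e23_range (by decide) (by decide))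
  have hF1 : F.degreeOf 1 = 0 := hdeg0 1 (e23_range (by decide) (by decide))
  have hFR : ∀ h, F.degreeOf h ≤ R := by
    intro h
    by_cases hh : h ∈ Set.range e23
    · obtain ⟨i, rfl⟩ := hh
      rw [hdeg i]
      exact (hfD i).trans hDR
    · rw [hdeg0 h hh]
      omega
  have hFz : aeval (sp4 ξ) F = 0 := aeval_F ξ f hev
  have hQ0 : Q ≠ 0 := by
    rintro rfl
    exact hQ (map_zero _)
  have hnd : ¬ F ∣ Q := by
    rintro ⟨G, hG⟩
    apply hQ
    rw [hG, map_mul, hFz, zero_mul]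
  have hSF : Prime (sepL K 3 F) := (MulEquiv.prime_iff (sepL K 3)).2 hFp
  have hnd' : ¬ sepL K 3 F ∣ sepL K 3 Q := by
    rintro ⟨G, hG⟩
    apply hnd
    refine ⟨(sepL K 3).symm G, ?_⟩
    apply (sepL K 3).injective
    rw [map_mul, AlgEquiv.apply_symm_apply, hG]
  have hr0 : Polynomial.resultant (sepL K 3 F) (sepL K 3 Q) ≠ 0 :=
    h1 _ _ _ hSF (by rw [s5, hF3]; exact hf1) hnd'
  have hFD : F.degreeOf (Fin.last 3) ≤ D := by rw [hF3]; exact hfD 1
  have hQD : Q.degreeOf (Fin.last 3) ≤ d := hQ3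
  have hdg := h2 K 3 D d F Q hFD hQD
  refine ⟨Polynomial.resultant (sepL K 3 F) (sepL K 3 Q), hr0, ?_, ?_, ?_, ?_, ?_⟩
  · have h := hdg 0
    have e0 : (Fin.castSucc (0 : Fin 3)) = (0 : Fin 4) := rfl
    rw [e0, hF0, mul_zero, zero_add] at h
    exact h.trans (Nat.mul_le_mul le_rfl (hQR 0))
  · have h := hdg 1
    have e0 : (Fin.castSucc (1 : Fin 3)) = (1 : Fin 4) := rfl
    rw [e0, hF1, mul_zero, zero_add] at h
    exact h.trans (Nat.mul_le_mul le_rfl (hQR 1))
  · have h := hdg 2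
    have e0 : (Fin.castSucc (2 : Fin 3)) = (2 : Fin 4) := rfl
    rw [e0, hF2] at h
    have h6 : d * f.degreeOf 0 ≤ d * D := Nat.mul_le_mul le_rfl (hfD 0)
    have h7 : D * Q.degreeOf 2 ≤ D * d := Nat.mul_le_mul le_rfl hQ2
    have h8 : d * D + D * d = 2 * D * d := by ring
    omega
  · have h := h3 F Q R hR hFp.ne_zero hQ0 hFD hQD hFR hQR
    rw [hPH] at h
    exact h
  · have hne : (sepL K 3 F).natDegree ≠ 0 := by
      rw [s5, hF3]
      omega
    obtain ⟨p, q, -, -, hpq⟩ := Polynomial.exists_mul_add_mul_eq_C_resultant (sepL K 3 F)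
      (sepL K 3 Q) le_rfl le_rfl (Or.inl hne)
    have h6 := congrArg (fun z => aeval (sp4 ξ) ((sepL K 3).symm z)) hpq
    simp only [map_add, map_mul, AlgEquiv.symm_apply_apply, aeval_sepL_symm h4] at h6
    rw [hFz, zero_mul, zero_add] at h6
    exact ⟨_, h6.symm⟩

end

end Pool.Agent.Helper66.SG
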