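import Pool.Agent.Helper66.SG.Goals

/-!
# Project SG, part 2: the zero estimate (from STEPB, FAC, BASE) and the index of `r`
-/

set_option autoImplicit false

open MvPolynomial

namespace Pool.Agent.Helper66.SG

open WeierstrassCurve Height
open Pool.Agent.Helper29.BL Pool.Agent.Helper92.Ru Pool.Agent.Helper42.SG
open Pool.Agent.Helper76.SGA

noncomputable section

lemma pt_eq {K : Type} (ξ : ℕ → K) : pt (ξ 0) (ξ 1) = fun h : Fin 2 => ξ h.val := by
  funext h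
  unfold pt
  fin_cases h <;> simp

theorem t_zer (h1 : STEPB) (h2 : FAC) (h3 : BASE) : ZER := by
  intro K _ _ σ hσ
  obtain ⟨C1, K1, ω, σ1, hC1, hK1, hω0, hω1, hσ1, hS⟩ := h1 K 2 σ hσ
  obtain ⟨C2, σ2, hC2, hσ2, hF⟩ := h2 K 2 σ1 hσ1
  obtain ⟨D, K3, hK3, hB⟩ := h3 K σ2 hσ2
  refine ⟨D, K1 * (K3 * (C2 * C1)), ω, ?_, hω0, hω1, ?_⟩
  · exact one_le_mul_of_one_le_of_one_le hK1 (one_le_mul_of_one_le_of_one_le hK3
      (one_le_mul_of_one_le_of_one_le hC2 hC1))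
  intro d1 d0 ξ H W p hd1 hd0 hd1H hd0ω hW hp hx2 hx0 hx1
  have hd1' : (1 : ℝ) ≤ d1 := by exact_mod_cast hd1
  have hH : 1 ≤ H := le_trans hd1' hd1H
  have hH0 : 0 ≤ H := by linarith
  have hd01 : (d0 : ℝ) ≤ d1 := by
    refine hd0ω.trans ?_
    nlinarith
  have h21 : 1 ≤ K3 * (C2 * C1) := one_le_mul_of_one_le_of_one_le hK3
      (one_le_mul_of_one_le_of_one_le hC2 hC1)
  have hb1 : K1 * H ≤ K1 * (K3 * (C2 * C1)) * H := by
    have : K1 * 1 ≤ K1 * (K3 * (C2 * C1)) := mul_le_mul_of_nonneg_left h21 (by linarith)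
    rw [mul_one] at this
    exact mul_le_mul_of_nonneg_right this hH0
  have hb3 : K3 * (C2 * (C1 * H)) ≤ K1 * (K3 * (C2 * C1)) * H := by
    have h5 : 0 ≤ K3 * (C2 * C1) * H := mul_nonneg (by linarith) hH0
    calc K3 * (C2 * (C1 * H)) = 1 * (K3 * (C2 * C1) * H) := by ring
      _ ≤ K1 * (K3 * (C2 * C1) * H) := mul_le_mul_of_nonneg_right hK1 h5
      _ = K1 * (K3 * (C2 * C1)) * H := by ring
  have hr : ∀ h : Fin 2, (if Fin.castSucc h = (2 : Fin 3) then d0 else d1) = d1 := by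
    intro h
    rw [if_neg]
    intro hh
    have := congrArg Fin.val hh
    have h2 := h.isLt
    simp at this
    omega
  obtain ⟨U, W', hU⟩ := hS (fun h : Fin 3 => if h = 2 then d0 else d1)
    (fun h : Fin 3 => ξ h.val) H W p
    (by
      intro h
      show 1 ≤ (if h = 2 then d0 else d1) ∧ (((if h = 2 then d0 else d1 : ℕ)) : ℝ) ≤ H
      by_cases h2 : h = 2
      · rw [if_pos h2]
        exact ⟨hd0, hd01.trans hd1H⟩
      · rw [if_neg h2]
        exact ⟨hd1, hd1H⟩)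
    (by
      intro h
      show (((if Fin.last 2 = (2 : Fin 3) then d0 else d1 : ℕ)) : ℝ) ≤
        ω * ((if Fin.castSucc h = (2 : Fin 3) then d0 else d1 : ℕ) : ℝ)
      rw [hr, if_pos (show Fin.last 2 = (2 : Fin 3) from rfl)]
      exact hd0ω)
    (by
      show 1 ≤ (((if Fin.last 2 = (2 : Fin 3) then d0 else d1 : ℕ)) : ℝ) * W
      rw [if_pos (show Fin.last 2 = (2 : Fin 3) from rfl)]
      exact hW)
    hp
    (by
      show K1 * H < (((if Fin.last 2 = (2 : Fin 3) then d0 else d1 : ℕ)) : ℝ) * _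
      rw [if_pos (show Fin.last 2 = (2 : Fin 3) from rfl)]
      exact lt_of_le_of_lt hb1 hx2)
  have hfun : (fun h : Fin 2 => if Fin.castSucc h = (2 : Fin 3) then d0 else d1) =
      fun _ : Fin 2 => d1 := by
    funext h
    exact hr h
  have hU' : InvW (fun _ : Fin 2 => d1) (fun h : Fin 2 => ξ h.val) (C1 * H) σ1 W' U := by
    have h6 := hU
    rw [← hfun]
    exact h6
  have hCH : H ≤ C1 * H := by nlinarith
  obtain ⟨g, W'', hg, hgi⟩ := hF (fun _ : Fin 2 => d1) (fun h : Fin 2 => ξ h.val) (C1 * H) W' U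
    (fun _ => ⟨hd1, hd1H.trans hCH⟩) hU'
  have hCH2 : H ≤ C2 * (C1 * H) := by nlinarith
  obtain ⟨k1, k2, k3⟩ := hB d1 (fun h : Fin 2 => ξ h.val) (C2 * (C1 * H)) W'' g hd1
    (hd1H.trans hCH2) hg hgi (by
      intro e
      fin_cases e
      · exact lt_of_le_of_lt hb3 hx0
      · exact lt_of_le_of_lt hb3 hx1)
  refine ⟨g, hg, k1, ?_, k3.trans hb3⟩
  rw [pt_eq]
  exact k2

end

end Pool.Agent.Helper66.SG
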