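import Pool.Agent.Helper66.SG.IXR
import Pool.Agent.Helper66.SG.ZER
import Pool.Agent.Helper66.SG.RESF
import Pool.Agent.Helper35.SG2.RNF
import Pool.Agent.Helper35.SG2.RDG
import Pool.Agent.Helper62.SG2.RHG
import Pool.Agent.Helper76.SGA.Main

/-!
# Project SG (MP_a41896_nt), part 2: elimination and zero estimate, unconditional
-/

set_option autoImplicit false

namespace Pool.Agent.Helper66.SG

theorem resf : RESF :=
  t_resf Pool.Agent.Helper35.SG2.t_rnf (Pool.Agent.Helper35.SG2.t_rdg Pool.Agent.Helper57.SGA.sep)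
    (Pool.Agent.Helper62.SG2.t_rhg Pool.Agent.Helper57.SGA.sep) Pool.Agent.Helper57.SGA.sep
    Pool.Agent.Helper32.SGA.ren

theorem zer : ZER :=
  t_zer (Pool.Agent.Helper92.SGA.stepb Pool.Agent.Helper2.SGA.wron) Pool.Agent.Helper76.SGA.fac
    (Pool.Agent.Helper35.SGA.base Pool.Agent.Helper76.SGA.res2)

end Pool.Agent.Helper66.SG
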